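import Pool.Agent.H36.ForestCount

/-!
# MP_bb4aa0_pr : the edge marginals of uniform `k`-component forests need not be monotone in `k`
-/

open SimpleGraph

namespace Pool.Agent.Results.MP_bb4aa0_pr.MarginalIncrease

open Pool.Agent.H36.ForestCount

/-- There are a connected graph `G` on seven vertices and an edge `e` of `G` with
`UF_1[ω(e)=1] = 6/17 < 5/14 = UF_2[ω(e)=1]`. -/
theorem result : ∃ G : SimpleGraph (Fin 7), G.Connected ∧ ∃ e ∈ G.edgeSet,
    UF G 1 e = 6 / 17 ∧ UF G (1 + 1) e = 5 / 14 ∧ UF G (1 + 1) e > UF G 1 e := by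
  refine ⟨G0, G0_connected, _, G0_mem, UF_one, UF_two, ?_⟩
  rw [UF_one, UF_two]
  norm_num

end Pool.Agent.Results.MP_bb4aa0_pr.MarginalIncrease
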